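import Pool.Agent.V7H22.VU.Final

/-!
# Vu's conjecture on independence numbers for `n ≤ c Δ log log Δ`

Let `G` be a graph with `n` vertices in which every two distinct vertices have at most `ζ Δ` common
neighbours. We prove `α(G) ≥ (1 / ζ - ε) n / Δ` for all `Δ ≥ Δ₀(ζ, ε)` and
`n ≤ ζ Δ log log Δ / (2 log 3)`; no bound for the degrees is needed. More generally every `s`
vertices may have at most `ζ Δ` common neighbours, `s ≥ 2` fixed.

Proof. Let `r` be the least number such that a random independent `r`-tuple is extended by at most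
`δ n` vertices on average. There are at least `(δ n) ^ r` independent `r`-tuples, and by a box lemma
(Erdős) one finds sets `S_1, ..., S_r` of `s` vertices such that all transversals are independent
and none is extended by more than `2 δ n` vertices. Every vertex outside these few is adjacent to
all vertices of one of the `S_i`, so `n ≤ r c + r s + 2 s ^ r δ n`, where `c` bounds the numbers of
common neighbours.
-/

set_option autoImplicit false

namespace Pool.Agent.Results.MP_c798af_co.DenseRangeH22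

open Finset Pool.Agent.V7H22.VU

/-- every `s` distinct vertices have at most `c` common neighbours -/
def CommonAtMost {V : Type} (G : SimpleGraph V) (s : ℕ) (c : ℝ) : Prop :=
  ∀ S : Finset V, S.card = s → ({w : V | ∀ v ∈ S, G.Adj v w}.ncard : ℝ) ≤ c

theorem result :
    -- (1) Vu's bound for `n ≤ ζ Δ log log Δ / (2 log 3)`
    (∀ ζ : ℝ, 0 < ζ → ∀ ε : ℝ, 0 < ε → ∃ Δ₀ : ℕ, ∀ Δ : ℕ, Δ₀ ≤ Δ →
      ∀ (V : Type) [Fintype V] [DecidableEq V] (G : SimpleGraph V) [DecidableRel G.Adj],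
        (∀ u v : V, u ≠ v →
          (((univ.filter (fun w => G.Adj u w ∧ G.Adj v w)).card : ℕ) : ℝ) ≤ ζ * (Δ : ℝ)) →
        (Fintype.card V : ℝ) ≤ ζ * Δ * (Real.log (Real.log Δ) / (2 * Real.log 3)) →
        (1 / ζ - ε) * ((Fintype.card V : ℝ) / (Δ : ℝ)) ≤ (G.indepNum : ℝ)) ∧
    -- (2) common neighbours of `s` vertices
    (∀ s : ℕ, 2 ≤ s → ∀ ζ : ℝ, 0 < ζ → ∀ ε : ℝ, 0 < ε → ∃ Δ₀ : ℕ, ∀ Δ : ℕ, Δ₀ ≤ Δ →
      ∀ (V : Type) [Fintype V] (G : SimpleGraph V), CommonAtMost G s (ζ * Δ) →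
        (Fintype.card V : ℝ) ≤ ζ * Δ * (Real.log (Real.log Δ) / (2 * Real.log (s + 1))) →
        (1 / ζ - ε) * ((Fintype.card V : ℝ) / (Δ : ℝ)) ≤ (G.indepNum : ℝ)) ∧
    -- (3) the explicit inequality
    (∀ (V : Type) [Fintype V] (G : SimpleGraph V) (s a : ℕ) (c ε : ℝ), 1 ≤ s →
      CommonAtMost G s c → 0 < ε → ε ≤ 1 → G.indepNum ≤ a →
      (s : ℝ) ≤ ((ε / (2 * (s : ℝ) ^ a)) ^ a / 16) ^ ((s + 1) ^ a) * Fintype.card V →
      (1 - ε) * Fintype.card V ≤ a * (c + s)) ∧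
    -- (4) fixed independence number
    (∀ s a : ℕ, 1 ≤ s → 1 ≤ a → ∀ ε : ℝ, 0 < ε → ∃ n₀ : ℕ,
      ∀ (V : Type) [Fintype V] (G : SimpleGraph V), n₀ ≤ Fintype.card V → G.indepNum ≤ a →
        ∃ S : Finset V, S.card = s ∧
          (1 - ε) * ((Fintype.card V : ℝ) / a) ≤ ({w : V | ∀ v ∈ S, G.Adj v w}.ncard : ℝ)) := by
  classical
  refine ⟨?_, ?_, ?_, ?_⟩
  · intro ζ hζ ε hε
    obtain ⟨Δ₀, h⟩ := vu 2 le_rfl ζ hζ ε hε
    refine ⟨Δ₀, fun Δ hΔ V _ _ G _ hc hn => h Δ hΔ V G ?_ ?_⟩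
    · intro S hS
      obtain ⟨u, v, huv, rfl⟩ := Finset.card_eq_two.1 hS
      have h1 : {w : V | ∀ x ∈ ({u, v} : Finset V), G.Adj x w} =
          ((univ.filter (fun w => G.Adj u w ∧ G.Adj v w) : Finset V) : Set V) := by
        ext w
        simp
      rw [h1, Set.ncard_coe_finset]
      exact hc u v huv
    · have e : ((2 : ℕ) : ℝ) + 1 = 3 := by norm_num
      rw [e]
      exact hn
  · intro s hs ζ hζ ε hε
    obtain ⟨Δ₀, h⟩ := vu s hs ζ hζ ε hε
    exact ⟨Δ₀, fun Δ hΔ V _ G hc hn => h Δ hΔ V G hc hn⟩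
  · intro V _ G s a c ε hs hc hε hε1 ha hn
    exact explicit G hs hc hε hε1 ha hn
  · intro s a hs ha ε hε
    obtain ⟨n₀, h⟩ := fixed_indep s a hs ha ε hε
    exact ⟨n₀, fun V _ G hn hi => h V G hn hi⟩

end Pool.Agent.Results.MP_c798af_co.DenseRangeH22
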